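import Mathlib
import Pool.Agent.Helper76.CV.Goals

/-!
# CV-HNA: the neck function `hN`
-/

open scoped ContDiff
open Filter Topology

namespace Pool.Agent.Helper50.CV.HNA

open Pool.Agent.Helper76.CV

noncomputable def D (τ : ℝ) : ℝ := (99 + Real.cosh (28 * τ)) / 100

noncomputable def D1 (τ : ℝ) : ℝ := 28 / 100 * Real.sinh (28 * τ)

noncomputable def D2 (τ : ℝ) : ℝ := 784 / 100 * Real.cosh (28 * τ)

lemma one_le_D (τ : ℝ) : 1 ≤ D τ := by
  unfold D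
  have := Real.one_le_cosh (28 * τ)
  linarith

lemma D_pos (τ : ℝ) : 0 < D τ := lt_of_lt_of_le one_pos (one_le_D τ)

lemma h28 (τ : ℝ) : HasDerivAt (fun t : ℝ => 28 * t) 28 τ := by
  simpa using (hasDerivAt_id τ).const_mul 28

lemma dD (τ : ℝ) : HasDerivAt D (D1 τ) τ := by
  have h2 := ((h28 τ).cosh.const_add 99).div_const 100
  have e : D1 τ = Real.sinh (28 * τ) * 28 / 100 := by unfold D1; ring
  rw [e]
  exact h2

lemma dD1 (τ : ℝ) : HasDerivAt D1 (D2 τ) τ := by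
  have h2 := ((h28 τ).sinh.const_mul (28 / 100))
  have e : D2 τ = 28 / 100 * (Real.cosh (28 * τ) * 28) := by unfold D2; ring
  rw [e]
  exact h2

lemma hN_eq (τ : ℝ) : hN τ = 99 / 100 * Real.exp (-(1 / 4 * Real.log (D τ))) := rfl

lemma smD : ContDiff ℝ ∞ D := by
  unfold D
  exact (contDiff_const.add (Real.contDiff_cosh.comp (contDiff_const.mul contDiff_id))).div_const _

lemma smN : ContDiff ℝ ∞ hN := by
  have h : hN = fun τ => 99 / 100 * Real.exp (-(1 / 4 * Real.log (D τ))) := funext hN_eq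
  rw [h]
  exact contDiff_const.mul (Real.contDiff_exp.comp
    ((contDiff_const.mul (smD.log (fun τ => (D_pos τ).ne'))).neg))

lemma dN (τ : ℝ) : HasDerivAt hN (hN τ * (-(1 / 4 * (D1 τ / D τ)))) τ := by
  have h1 := (((dD τ).log (D_pos τ).ne').const_mul (1 / 4)).neg.exp.const_mul (99 / 100)
  have e : hN τ * (-(1 / 4 * (D1 τ / D τ))) =
      99 / 100 * (Real.exp (-(1 / 4 * Real.log (D τ))) * -(1 / 4 * (D1 τ / D τ))) := by
    rw [hN_eq]; ring
  rw [e]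
  exact h1

lemma derivN : deriv hN = fun τ => hN τ * (-(1 / 4 * (D1 τ / D τ))) :=
  funext fun τ => (dN τ).deriv

lemma ddN (τ : ℝ) : deriv (deriv hN) τ =
    hN τ * (-(1 / 4 * (D1 τ / D τ))) * (-(1 / 4 * (D1 τ / D τ))) +
      hN τ * (-(1 / 4 * ((D2 τ * D τ - D1 τ * D1 τ) / D τ ^ 2))) := by
  rw [derivN]
  have h1 := (dN τ).mul ((((dD1 τ).div (dD τ) (D_pos τ).ne').const_mul (1 / 4)).neg)
  exact h1.deriv

lemma z4 (τ : ℝ) : (hN τ / (99 / 100)) ^ 4 = 1 / D τ := by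
  rw [hN_eq, mul_div_cancel_left₀ _ (by norm_num : (99 / 100 : ℝ) ≠ 0), ← Real.exp_nat_mul]
  have e : ((4 : ℕ) : ℝ) * -(1 / 4 * Real.log (D τ)) = -Real.log (D τ) := by push_cast; ring
  rw [e, Real.exp_neg, Real.exp_log (D_pos τ), one_div]

lemma z8 (τ : ℝ) : (hN τ / (99 / 100)) ^ 8 = 1 / D τ ^ 2 := by
  have e : (hN τ / (99 / 100)) ^ 8 = ((hN τ / (99 / 100)) ^ 4) ^ 2 := by ring
  rw [e, z4, div_pow, one_pow]

lemma cosh_eq (τ : ℝ) : Real.cosh (28 * τ) = 100 * D τ - 99 := by unfold D; ring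

lemma D1sq (τ : ℝ) : D1 τ ^ 2 = 784 * (D τ - 1) * (D τ - 98 / 100) := by
  have h := Real.sinh_sq (28 * τ)
  rw [cosh_eq] at h
  unfold D1
  rw [mul_pow, h]
  ring

lemma D2eq (τ : ℝ) : D2 τ = 784 * (D τ - 99 / 100) := by
  unfold D2
  rw [cosh_eq]
  ring

theorem t : HNA := by
  refine ⟨smN, fun τ => ⟨?_, ?_, ?_, ?_⟩⟩
  · rw [hN_eq]; positivity
  · rw [hN_eq]
    have h : Real.exp (-(1 / 4 * Real.log (D τ))) ≤ 1 := by
      rw [Real.exp_le_one_iff]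
      have := Real.log_nonneg (one_le_D τ)
      linarith
    linarith
  · rw [z4, derivN]
    have hp := (D_pos τ).ne'
    have h1 := D1sq τ
    have e : (hN τ * (-(1 / 4 * (D1 τ / D τ))) / 2) ^ 2 = hN τ ^ 2 * D1 τ ^ 2 / (64 * D τ ^ 2) := by
      field_simp
      ring
    simp only [e, h1]
    field_simp
    ring
  · rw [z4, z8, ddN, D2eq]
    have hp := (D_pos τ).ne'
    have h1 := D1sq τ
    have e : (hN τ * (-(1 / 4 * (D1 τ / D τ))) * (-(1 / 4 * (D1 τ / D τ))) +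
      hN τ * (-(1 / 4 * ((784 * (D τ - 99 / 100) * D τ - D1 τ * D1 τ) / D τ ^ 2)))) / 2 =
      hN τ * (1 / 8 * (5 / 4 * (D1 τ ^ 2 / D τ ^ 2) - 784 * (D τ - 99 / 100) / D τ)) := by
      field_simp
      ring
    rw [e, h1]
    field_simp
    ring

end Pool.Agent.Helper50.CV.HNA
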